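import Pool.Agent.N434.DT.LAB

/-!
Project DT (MP_fb67b4_an), task B2: products of blocks, superblocks of any size.
-/

set_option autoImplicit false

noncomputable section

namespace Pool.Agent.N434.DT

open Pool.Agent.N299 Pool.Agent.N299.DT

theorem t_B2 : S_B2 := by
  intro I I' κ κ' _ _ _ _ E _ o o' C C' k k' r r' h h' hc
  have hCC : ∀ i i', Co (C i) (C' i') := fun i i' => hc (some (.inl i)) (some (.inl i'))
  have hCk : ∀ i, Co (C i) k' := fun i => hc (some (.inl i)) none
  have hkC : ∀ i', Co k (C' i') := fun i' => hc none (some (.inl i'))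
  have hkk : Co k k' := hc none none
  have hrk : ∀ t, Co (r t) k' := fun t => hc (some (.inr t)) none
  have hrr : ∀ t t', Co (r t) (r' t') := fun t t' => hc (some (.inr t)) (some (.inr t'))
  have hkr : ∀ t', Co k (r' t') := fun t' => hc none (some (.inr t'))
  refine ⟨?_, ?_, ?_, ?_, ?_, ?_, ?_⟩
  · -- sa
    rw [star_mul, h.sa, h'.sa, (hCC o o').1]
  · rintro ⟨i, i'⟩
    have h1 : C' o' * C' o' * star (C i) = star (C i) * (C' o' * C' o') :=
      ((hCC i o').mul_right (hCC i o')).star_left.1.symm
    have h2 := (hCC o o').1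
    calc C i * C' i' * star (C i * C' i') = C i * (C' i' * star (C' i')) * star (C i) := by
          rw [star_mul]; simp only [mul_assoc]
      _ = C i * (C' o' * C' o' * star (C i)) := by rw [h'.diag, mul_assoc]
      _ = C i * star (C i) * (C' o' * C' o') := by rw [h1, mul_assoc]
      _ = C o * (C o * C' o') * C' o' := by rw [h.diag]; simp only [mul_assoc]
      _ = C o * (C' o' * C o) * C' o' := by rw [h2]
      _ = C o * C' o' * (C o * C' o') := by simp only [mul_assoc]
  · rintro ⟨i, i'⟩ ⟨j, j'⟩ hij
    show C i * C' i' * star (C j * C' j') = 0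
    have h0 : C i * C' i' * star (C j * C' j') = C i * (C' i' * star (C' j')) * star (C j) := by
      rw [star_mul]; simp only [mul_assoc]
    rw [h0]
    by_cases hi' : i' = j'
    · subst hi'
      have hi : i ≠ j := fun hh => hij (by rw [hh])
      have h1 : C' o' * C' o' * star (C j) = star (C j) * (C' o' * C' o') :=
        ((hCC j o').mul_right (hCC j o')).star_left.1.symm
      rw [h'.diag, mul_assoc, h1, ← mul_assoc, h.orth i j hi, zero_mul]
    · rw [h'.orth i' j' hi', mul_zero, zero_mul]
  · -- le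
    have h1 : 1 - ∑ p : I × I', star (C p.1 * C' p.2) * (C p.1 * C' p.2) =
        (1 - ∑ i, star (C i) * C i) +
          ∑ i, star (C i) * (1 - ∑ i', star (C' i') * C' i') * C i := by
      have h2 : ∀ i, star (C i) * (1 - ∑ i', star (C' i') * C' i') * C i =
          star (C i) * C i - ∑ i', star (C i * C' i') * (C i * C' i') := by
        intro i
        rw [mul_sub, sub_mul, mul_one, Finset.mul_sum, Finset.sum_mul]
        congr 1
        refine Finset.sum_congr rfl fun i' _ => ?_
        have h3 : star (C i) * star (C' i') = star (C' i') * star (C i) :=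
          (hCC i i').star_left.2
        calc star (C i) * (star (C' i') * C' i') * C i
            = star (C i) * star (C' i') * (C' i' * C i) := by simp only [mul_assoc]
          _ = star (C i * C' i') * (C i * C' i') := by
            rw [h3, ← (hCC i i').1, star_mul]
      rw [Fintype.sum_prod_type, Finset.sum_congr rfl (fun i _ => h2 i), Finset.sum_sub_distrib]
      abel
    rw [h1]
    exact h.le.add (Pos.sum _ _ fun i _ => h'.le.conj (C i))
  · rw [star_mul, h.ksa, h'.ksa, hkk.1]
  · have h1 := (hkC o').1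
    calc C o * C' o' * (k * k') = C o * (C' o' * k) * k' := by simp only [mul_assoc]
      _ = (C o * k) * (C' o' * k') := by rw [← h1]; simp only [mul_assoc]
      _ = k * k' := by rw [h.Ck, h'.Ck]
  · -- one
    have h1 : ∀ t t', star (r t * r' t') * (k * k' * (k * k')) * (r t * r' t') =
        star (r' t') * (star (r t) * (k * k) * r t) * (k' * k') * r' t' := by
      intro t t'
      have h2 := hkk.1
      have h3 : k' * k' * r t = r t * (k' * k') := ((hrk t).mul_right (hrk t)).1.symm
      calc star (r t * r' t') * (k * k' * (k * k')) * (r t * r' t')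
          = star (r' t') * (star (r t) * (k * (k' * k)) * k' * r t) * r' t' := by
            rw [star_mul]; simp only [mul_assoc]
        _ = star (r' t') * (star (r t) * (k * k) * (k' * k' * r t)) * r' t' := by
            rw [← h2]; simp only [mul_assoc]
        _ = _ := by rw [h3]; simp only [mul_assoc]
    rw [Fintype.sum_prod_type, Finset.sum_comm]
    calc ∑ t', ∑ t, star (r t * r' t') * (k * k' * (k * k')) * (r t * r' t')
        = ∑ t', star (r' t') * (∑ t, star (r t) * (k * k) * r t) * (k' * k') * r' t' := by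
          refine Finset.sum_congr rfl fun t' _ => ?_
          rw [Finset.mul_sum, Finset.sum_mul, Finset.sum_mul]
          exact Finset.sum_congr rfl fun t _ => h1 t t'
      _ = 1 := by
          rw [h.one]
          simp only [mul_one]
          exact h'.one

/-- restriction of a superblock to a subfamily containing the base point -/
lemma SB.restrict {E : Type} [CStarAlgebra E] {I I₂ κ κ₂ : Type} [Fintype I] [Fintype I₂]
    [Fintype κ] [Fintype κ₂] {o : I} {C : I → E} {k : E} {r : κ → E} (h : SB o C k r)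
    (e : I₂ → I) (he : Function.Injective e) (o₂ : I₂) (ho : e o₂ = o) (f : κ₂ ≃ κ) :
    SB o₂ (C ∘ e) k (r ∘ f) := by
  classical
  refine ⟨?_, ?_, ?_, ?_, h.ksa, ?_, ?_⟩
  · simp only [Function.comp, ho, h.sa]
  · intro i
    simp only [Function.comp, ho, h.diag]
  · intro i j hij
    exact h.orth _ _ (he.ne hij)
  · have h1 : 1 - ∑ i, star ((C ∘ e) i) * (C ∘ e) i =
        (1 - ∑ i, star (C i) * C i) + ∑ i ∈ (Finset.univ.image e)ᶜ, star (C i) * C i := by
      have h2 := Finset.sum_compl_add_sum (Finset.univ.image e) (fun i => star (C i) * C i)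
      rw [Finset.sum_image (fun a _ b _ hab => he hab)] at h2
      rw [← h2]
      simp only [Function.comp]
      abel
    rw [h1]
    exact h.le.add (Pos.sum _ _ fun i _ => pos_star_mul _)
  · simp only [Function.comp, ho, h.Ck]
  · rw [← h.one]
    exact f.sum_comp (fun t => star (r t) * (k * k) * r t)

lemma cm_restrict {E : Type} [CStarAlgebra E] {I I₂ κ κ₂ : Type} {C : I → E} {k : E} {r : κ → E}
    (e : I₂ → I) (f : κ₂ → κ) (x : E) (h : Cm x (SBf C k r)) :
    Cm x (SBf (C ∘ e) k (r ∘ f)) := by
  rintro (_ | i | t)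
  · exact h none
  · exact h (some (.inl (e i)))
  · exact h (some (.inr (f t)))

theorem superblock (hB1 : S_B1) (hB2 : S_B2) (n R : ℕ) (E : Type) [CStarAlgebra E]
    (V : Fin R → Unit ⊕ (Bool × Fin n) → E) (hV : ∀ j, ZT n (V j))
    (hc : ∀ j k, j ≠ k → CmS (V j) (V k)) :
    ∃ (C : (Fin R → Fin 2) → E) (k : E) (r : (Fin R → Fin n) → E),
      SB (fun _ => 0) C k r ∧ ∀ x, (∀ j, Cm x (V j)) → Cm x (SBf C k r) := by
  induction R with
  | zero =>
    refine ⟨fun _ => 1, 1, fun _ => 1, ⟨?_, ?_, ?_, ?_, ?_, ?_, ?_⟩, ?_⟩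
    · simp
    · simp
    · intro i j hij
      exact absurd (Subsingleton.elim i j) hij
    · simpa using pos_zero
    · simp
    · simp
    · simp
    · intro x _
      rintro (_ | i | t) <;> simp [SBf]
  | succ R ih =>
    obtain ⟨C₁, k₁, r₁, h₁, hd₁⟩ := hB1 n E (V 0) (hV 0)
    obtain ⟨C₂, k₂, r₂, h₂, hd₂⟩ := ih (fun j => V j.succ) (fun j => hV j.succ)
      (fun j l hjl => hc _ _ fun hh => hjl (Fin.succ_injective _ hh))
    have hcm : CmS (SBf C₁ k₁ r₁) (SBf C₂ k₂ r₂) := by
      intro a b
      refine hd₂ (SBf C₁ k₁ r₁ a) (fun j i => ?_) b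
      refine Co.symm ?_
      exact hd₁ (V j.succ i) (fun i' => hc j.succ 0 (Fin.succ_ne_zero j) i i') a
    have h := hB2 _ _ _ _ E _ _ C₁ C₂ k₁ k₂ r₁ r₂ h₁ h₂ hcm
    let e : (Fin (R + 1) → Fin 2) → Fin 2 × (Fin R → Fin 2) := fun v => (v 0, fun j => v j.succ)
    let f : (Fin (R + 1) → Fin n) ≃ Fin n × (Fin R → Fin n) :=
      (Fin.consEquiv (fun _ : Fin (R + 1) => Fin n)).symm
    have he : Function.Injective e := by
      intro v w hvw
      have h1 := congrArg Prod.fst hvw
      have h2 := congrArg Prod.snd hvw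
      funext j
      refine Fin.cases h1 (fun l => congrFun h2 l) j
    refine ⟨(fun p : Fin 2 × (Fin R → Fin 2) => C₁ p.1 * C₂ p.2) ∘ e, k₁ * k₂,
      (fun q : Fin n × (Fin R → Fin n) => r₁ q.1 * r₂ q.2) ∘ f,
      SB.restrict h e he (fun _ => 0) rfl f, ?_⟩
    intro x hx
    have hx₁ := hd₁ x (hx 0)
    have hx₂ := hd₂ x fun j => hx j.succ
    refine cm_restrict e f x ?_
    rintro (_ | ⟨i, i'⟩ | ⟨t, t'⟩)
    · exact Co.mul_right (hx₁ none) (hx₂ none)
    · exact Co.mul_right (hx₁ (some (.inl i))) (hx₂ (some (.inl i')))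
    · exact Co.mul_right (hx₁ (some (.inr t))) (hx₂ (some (.inr t')))

theorem t_B3 (hB1 : S_B1) (hB2 : S_B2) : S_B3 := by
  intro n N
  refine ⟨N + 1, n ^ (N + 1), ?_⟩
  intro E _ V hV hc
  obtain ⟨C, k, r, h, hd⟩ := superblock hB1 hB2 n (N + 1) E V hV hc
  let e : Fin (N + 1) → (Fin (N + 1) → Fin 2) := fun i j => if j = i ∧ i ≠ 0 then 1 else 0
  have he : Function.Injective e := by
    intro a b hab
    by_cases ha : a = 0
    · by_cases hb : b = 0
      · rw [ha, hb]
      · have := congrFun hab b
        simp [e, ha, hb] at this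
    · have := congrFun hab a
      by_cases hab' : a = b
      · exact hab'
      · simp [e, ha, hab'] at this
  have h0 : e 0 = fun _ => 0 := by
    funext j
    simp [e]
  refine ⟨C ∘ e, k, r ∘ (finFunctionFinEquiv (m := n) (n := N + 1)).symm,
    SB.restrict h e he 0 h0 _, ?_⟩
  intro x hx
  exact cm_restrict e _ x (hd x hx)

end Pool.Agent.N434.DT
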