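import Pool.Agent.N434.DT.LAB

/-!
Project DT (MP_fb67b4_an), task F1: no character implies `1` is a sum of commutators.
-/

set_option autoImplicit false

open scoped BoundedContinuousFunction Topology
open Filter

noncomputable section

namespace Pool.Agent.N434.DT

open Pool.Agent.N299 Pool.Agent.N299.DT

/-- an algebra all of whose commutators vanish in a simple quotient has a character -/
lemma exists_char (hCEN : S_CEN) {D S : Type} [CStarAlgebra D] [CStarAlgebra S] (hS : Sim S)
    (π : D →⋆ₐ[ℂ] S) (hsurj : Function.Surjective π)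
    (h0 : ∀ x z : D, π (x * z - z * x) = 0) : Nonempty (D →⋆ₐ[ℂ] ℂ) := by
  have hsc : ∀ x : S, ∃ c : ℂ, x = c • 1 := by
    intro x
    refine hCEN S hS x fun y => ?_
    obtain ⟨x', rfl⟩ := hsurj x
    obtain ⟨y', rfl⟩ := hsurj y
    have := h0 x' y'
    rw [map_sub, map_mul, map_mul, sub_eq_zero] at this
    exact this
  choose c hc using hsc
  have huniq : ∀ (x : S) (t : ℂ), x = t • 1 → c x = t := by
    intro x t hx
    have h1 : (c x - t) • (1 : S) = 0 := by rw [sub_smul, ← hc x, ← hx, sub_self]
    rcases smul_eq_zero.1 h1 with h | h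
    · exact sub_eq_zero.1 h
    · exact absurd h hS.1
  refine ⟨{ toFun := fun x => c (π x), map_one' := ?_, map_mul' := ?_, map_zero' := ?_,
            map_add' := ?_, commutes' := ?_, map_star' := ?_ }⟩
  · exact huniq _ _ (by rw [map_one, one_smul])
  · intro x y
    refine huniq _ _ ?_
    rw [map_mul]
    nth_rewrite 1 [hc (π x), hc (π y)]
    rw [smul_mul_smul_comm, one_mul]
  · exact huniq _ _ (by rw [map_zero, zero_smul])
  · intro x y
    refine huniq _ _ ?_
    rw [map_add]
    nth_rewrite 1 [hc (π x), hc (π y)]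
    rw [add_smul]
  · intro r
    refine huniq _ _ ?_
    show π (algebraMap ℂ D r) = (algebraMap ℂ ℂ r) • (1 : S)
    rw [Algebra.algebraMap_eq_smul_one, map_smul, map_one]
    rfl
  · intro x
    refine huniq _ _ ?_
    rw [map_star]
    nth_rewrite 1 [hc (π x)]
    rw [star_smul, star_one]

theorem t_F1 (hSQ : S_SQ) (hCEN : S_CEN) : S_F1 := by
  intro A Q _ _ ω q _ hch
  have hcl : IsClosed (Cen q : Set Q) := by
    rw [Cen, StarSubalgebra.coe_centralizer]
    exact Set.isClosed_centralizer _
  have _ : IsClosed ((Cen q : StarSubalgebra ℂ Q) : Set Q) := hcl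
  let _ : CStarAlgebra (Cen q) := inferInstance
  let X : Cen q × Cen q → Cen q := fun p => p.1 * p.2 - p.2 * p.1
  by_cases hX : Cert X
  · obtain ⟨k, t, a, b, h⟩ := hX
    refine ⟨k, fun p => if p.1 = 0 then ((t p.2).1 : Q) else if p.1 = 1 then ((t p.2).2 : Q) else
      if p.1 = 2 then (a p.2 : Q) else (b p.2 : Q), ?_, ?_⟩
    · rintro ⟨g, i⟩
      dsimp only
      split_ifs
      exacts [(t i).1.2, (t i).2.2, (a i).2, (b i).2]
    · have h1 := congrArg (fun z : Cen q => (z : Q)) h
      dsimp only [X] at h1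
      rw [AddSubmonoidClass.coe_finsetSum] at h1
      simpa [Com] using h1
  · exfalso
    obtain ⟨S, instS, π, hS, hsurj, h0⟩ := hSQ (Cen q) _ X hX
    obtain ⟨f⟩ := exists_char hCEN hS π hsurj fun x z => h0 (x, z)
    exact hch f

end Pool.Agent.N434.DT
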