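import Pool.Agent.N434.DT.LAB

/-!
Project DT (MP_fb67b4_an), task IT: iterated union of commuting order zero maps.
-/

set_option autoImplicit false

noncomputable section

namespace Pool.Agent.N434.DT

open Pool.Agent.N299 Pool.Agent.N299.DT

lemma it_ident {E : Type} [CStarAlgebra E] (e dl : E) (hc : dl * e = e * dl) :
    (4 : ℂ) • (e * (dl * dl)) - (1 - (1 - e) * (1 - e)) *
      (1 - (1 - dl * dl) * (1 - dl * dl)) =
    dl * e * (e * dl) + dl * e * (1 - dl * dl) * (e * dl) +
      (2 : ℂ) • (dl * dl * e * (dl * dl)) := by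
  have hc' : ∀ x, dl * (e * x) = e * (dl * x) := fun x => by
    rw [← mul_assoc, hc, mul_assoc]
  simp only [mul_sub, sub_mul, mul_assoc, hc, hc', one_mul, mul_one]
  module

theorem t_IT (hUN : S_UN) : S_IT := by
  intro N K
  induction K with
  | zero =>
    intro E _ a P d hMS hPP hd hdd hcd hdP
    refine ⟨a 0, P 0, hMS 0, ?_, fun x hx => hx 0, fun k h1 h2 => ⟨h1, h2⟩⟩
    have h1 : (List.ofFn d).prod = d 0 := by simp [List.ofFn_succ]
    rw [h1, hd, hdd, pow_zero, one_smul, sub_self]
    exact pos_zero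
  | succ K ih =>
    intro E _ a P d hMS hPP hd hdd hcd hdP
    obtain ⟨θ₀, ψ₀, hM₀, hpos₀, hx₀, hk₀⟩ := ih E (fun l => a l.castSucc) (fun l => P l.castSucc)
      (fun l => d l.castSucc) (fun l => hMS _)
      (fun l l' hl => hPP _ _ fun hh => hl (Fin.castSucc_injective _ hh))
      (fun l => hd _) (fun l => hdd _) (fun l l' => hcd _ _) (fun l l' => hdP _ _)
    set L := Fin.last (K + 1) with hL
    have hne : ∀ l : Fin (K + 1), l.castSucc ≠ L := fun l => (Fin.castSucc_lt_last l).ne
    have hcomm : ∀ i j k l, ψ₀ i j * P L k l = P L k l * ψ₀ i j := by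
      intro i j k l
      exact (hx₀ (P L k l) (fun m i' j' => (hPP _ _ (hne m) i' j' k l).symm) i j).symm
    obtain ⟨θ, ψ, hM, hθ, hx, hk⟩ := hUN N E θ₀ (a L) ψ₀ (P L) hM₀ (hMS L) hcomm
    refine ⟨θ, ψ, hM, ?_, ?_, ?_⟩
    · -- positivity
      have hdθ : d L * θ₀ = θ₀ * d L := by
        rw [← hM₀.sum, Finset.mul_sum, Finset.sum_mul]
        exact Finset.sum_congr rfl fun i _ => hx₀ (d L) (fun m i' j' => hdP _ _ _ _) i i
      set D₀ := (List.ofFn fun l : Fin (K + 1) => d l.castSucc).prod with hD₀
      have hD : (List.ofFn d).prod = D₀ * d L := by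
        rw [List.ofFn_succ', List.prod_concat]
      obtain ⟨e, he⟩ : ∃ e, e = 1 - θ₀ := ⟨_, rfl⟩
      have hθe : θ₀ = 1 - e := by rw [he]; abel
      have hb : a L = 1 - d L * d L := by rw [hdd]; abel
      have hce : d L * e = e * d L := by
        rw [he, mul_sub, sub_mul, hdθ, mul_one, one_mul]
      have hse : star e = e := by
        have := hM₀.le.sa
        rw [← he] at this
        exact this
      have hePos : Pos e := by rw [he]; exact hM₀.le
      have hbPos : Pos (1 - d L * d L) := by rw [← hb]; exact (hMS L).pos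
      have hP1 : Pos (star (e * d L) * (e * d L)) := pos_star_mul _
      have hP2 : Pos (star (e * d L) * (1 - d L * d L) * (e * d L)) := hbPos.conj _
      have hP3 : Pos (star (d L * d L) * e * (d L * d L)) := hePos.conj _
      have hP4 : Pos (star (d L) * ((4 ^ K : ℂ) • (star D₀ * D₀) - (1 - θ₀)) * d L) :=
        hpos₀.conj _
      have h4 : Pos ((4 : ℂ) • (star (d L) * ((4 ^ K : ℂ) • (star D₀ * D₀) - (1 - θ₀)) * d L)) := by
        have := hP4.smul (r := 4) (by norm_num)
        simpa using this
      have h2 : Pos ((2 : ℂ) • (star (d L * d L) * e * (d L * d L))) := by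
        have := hP3.smul (r := 2) (by norm_num)
        simpa using this
      have hid := it_ident e (d L) hce
      have hfin : (4 ^ (K + 1) : ℂ) • (star (List.ofFn d).prod * (List.ofFn d).prod) - (1 - θ) =
          (4 : ℂ) • (star (d L) * ((4 ^ K : ℂ) • (star D₀ * D₀) - (1 - θ₀)) * d L) +
          (star (e * d L) * (e * d L) + star (e * d L) * (1 - d L * d L) * (e * d L) +
          (2 : ℂ) • (star (d L * d L) * e * (d L * d L))) := by
        have hs : star (e * d L) = d L * e := by rw [star_mul, hse, hd]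
        have hs2 : star (d L * d L) = d L * d L := by rw [star_mul, hd]
        rw [hs, hs2, ← hid, hθ, hD, star_mul, hd, hb, hθe]
        have h5 : d L * ((4 ^ K : ℂ) • (star D₀ * D₀) - (1 - (1 - e))) * d L =
            (4 ^ K : ℂ) • (d L * star D₀ * (D₀ * d L)) - e * (d L * d L) := by
          rw [mul_sub, sub_mul, mul_smul_comm, smul_mul_assoc]
          have : (1 : E) - (1 - e) = e := by abel
          rw [this, hce]
          simp only [mul_assoc]
        rw [h5, pow_succ]
        module
      rw [hfin]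
      exact h4.add ((hP1.add hP2).add h2)
    · intro x hxx
      exact hx x (fun i j => hx₀ x (fun l => hxx _) i j) (fun i j => hxx L i j)
    · intro k h1 h2
      obtain ⟨h3, h4⟩ := hk₀ k h1 h2
      exact hk k h3 h4

end Pool.Agent.N434.DT
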