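import Pool.Agent.N299.DT.Stm

/-!
Project DT (MP_fb67b4_an), task LAB: the label trick.
-/

set_option autoImplicit false

noncomputable section

namespace Pool.Agent.N434.DT

open Pool.Agent.N299 Pool.Agent.N299.DT

/-! ### ordered products -/

/-- ordered product -/
def op {E : Type} [Monoid E] {m : ℕ} (f : Fin m → E) : E := (List.ofFn f).prod

lemma op_zero {E : Type} [Monoid E] (f : Fin 0 → E) : op f = 1 := by simp [op]

lemma op_succ {E : Type} [Monoid E] {m : ℕ} (f : Fin (m + 1) → E) :
    op f = f 0 * op (fun i => f i.succ) := by simp [op, List.ofFn_succ]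

lemma comm_op {E : Type} [Monoid E] {m : ℕ} (x : E) (f : Fin m → E)
    (h : ∀ l, x * f l = f l * x) : x * op f = op f * x := by
  induction m with
  | zero => simp [op_zero]
  | succ m ih =>
    rw [op_succ, ← mul_assoc, h 0, mul_assoc, ih _ (fun l => h l.succ), mul_assoc]

lemma op_mul {E : Type} [Monoid E] {m : ℕ} (f g : Fin m → E)
    (h : ∀ l l', l ≠ l' → g l * f l' = f l' * g l) :
    op f * op g = op (fun l => f l * g l) := by
  induction m with
  | zero => simp [op_zero]
  | succ m ih =>
    rw [op_succ f, op_succ g, op_succ (fun l => f l * g l), ← ih (fun l => f l.succ)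
      (fun l => g l.succ) (fun l l' hl => h _ _ (fun h' => hl (Fin.succ_injective _ h')))]
    have h1 := comm_op (g 0) (fun l : Fin m => f l.succ)
      (fun l => h 0 l.succ (Fin.succ_ne_zero l).symm)
    calc f 0 * op (fun i => f i.succ) * (g 0 * op fun i => g i.succ)
        = f 0 * (op (fun i => f i.succ) * g 0) * op fun i => g i.succ := by
          simp only [mul_assoc]
      _ = f 0 * g 0 * ((op fun l => f l.succ) * op fun l => g l.succ) := by
          rw [← h1]; simp only [mul_assoc]

lemma star_op {E : Type} [Monoid E] [StarMul E] {m : ℕ} (f : Fin m → E)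
    (h : ∀ l l', l ≠ l' → f l * f l' = f l' * f l) :
    star (op f) = op (fun l => star (f l)) := by
  induction m with
  | zero => simp [op_zero]
  | succ m ih =>
    rw [op_succ f, op_succ (fun l => star (f l)), star_mul, ih (fun l => f l.succ)
      (fun l l' hl => h _ _ (fun h' => hl (Fin.succ_injective _ h')))]
    refine (comm_op _ _ fun l => ?_).symm
    rw [← star_mul, ← star_mul, h 0 l.succ (Fin.succ_ne_zero l).symm]

lemma op_eq_zero {E : Type} [MonoidWithZero E] {m : ℕ} (f : Fin m → E) (l : Fin m)
    (h : f l = 0) : op f = 0 := by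
  apply List.prod_eq_zero
  rw [List.mem_ofFn]
  exact ⟨l, h⟩

lemma op_sum {E : Type} [Semiring E] {ι : Type} [Fintype ι] {m : ℕ} (f : Fin m → ι → E) :
    op (fun l => ∑ t, f l t) = ∑ i : Fin m → ι, op (fun l => f l (i l)) := by
  induction m with
  | zero => simp [op_zero]
  | succ m ih =>
    rw [op_succ, ih (fun l => f l.succ), Finset.sum_mul_sum,
      ← (Fin.consEquiv (fun _ : Fin (m + 1) => ι)).sum_comp, Fintype.sum_prod_type]
    refine Finset.sum_congr rfl fun a _ => Finset.sum_congr rfl fun b _ => ?_
    rw [op_succ]
    simp [Fin.consEquiv]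

lemma op_ite {E : Type} [Semiring E] {m : ℕ} (c : Fin m → Prop) [∀ l, Decidable (c l)]
    [Decidable (∀ l, c l)]
    (f : Fin m → E) : op (fun l => if c l then f l else 0) = if ∀ l, c l then op f else 0 := by
  split_ifs with h
  · congr 1
    funext l
    rw [if_pos (h l)]
  · push Not at h
    obtain ⟨l, hl⟩ := h
    exact op_eq_zero _ l (if_neg hl)

/-! ### commutation with adjoints -/

/-- commuting with the element and the adjoint -/
def Co {E : Type} [CStarAlgebra E] (x y : E) : Prop := x * y = y * x ∧ x * star y = star y * x

section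

variable {E : Type} [CStarAlgebra E] {x y z : E}

lemma Co.symm (h : Co x y) : Co y x := by
  refine ⟨h.1.symm, ?_⟩
  have := congrArg star h.2
  simpa using this

lemma Co.star_right (h : Co x y) : Co x (star y) := ⟨h.2, by simpa using h.1⟩

lemma Co.mul_right (h : Co x y) (h' : Co x z) : Co x (y * z) := by
  refine ⟨?_, ?_⟩
  · rw [← mul_assoc, h.1, mul_assoc, h'.1, mul_assoc]
  · rw [star_mul, ← mul_assoc, h'.2, mul_assoc, h.2, mul_assoc]

lemma Co.one_right : Co x 1 := by simp [Co]

lemma Co.mul_left (h : Co x z) (h' : Co y z) : Co (x * y) z :=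
  (h.symm.mul_right h'.symm).symm

lemma Co.star_left (h : Co x z) : Co (star x) z := h.symm.star_right.symm

end

section main

variable {E : Type} [CStarAlgebra E]

/-- the abstract label trick -/
lemma label {n K J : ℕ} {g : Fin J → Fin (K + 1) → Option (Fin n)} (hg : Dsg n K J g)
    (u : Fin (K + 1) → Option (Fin n) → E)
    (h1 : ∀ l l', l ≠ l' → ∀ o o', Co (u l o) (u l' o'))
    (h2 : ∀ l i, star (u l none) * u l (some i) = 0)
    (h3 : ∀ l, star (u l none) * u l none = ∑ i, star (u l (some i)) * u l (some i)) :
    Pos (star (∑ j, op fun l => u l (g j l)) * (∑ j, op fun l => u l (g j l)) -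
      star (op fun l => u l none) * (op fun l => u l none)) := by
  classical
  have h2' : ∀ l i, star (u l (some i)) * u l none = 0 := by
    intro l i
    have := congrArg star (h2 l i)
    simpa using this
  -- products of two labels
  have key : ∀ a b : Fin (K + 1) → Option (Fin n),
      star (op fun l => u l (a l)) * (op fun l => u l (b l)) =
        op fun l => star (u l (a l)) * u l (b l) := by
    intro a b
    rw [star_op _ fun l l' hl => (h1 l l' hl _ _).1, op_mul]
    intro l l' hl
    exact (h1 l l' hl (b l) (a l')).2
  -- the diagonal terms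
  have diag : ∀ a : Fin (K + 1) → Option (Fin n),
      (op fun l => star (u l (a l)) * u l (a l)) =
        ∑ i : Fin (K + 1) → Fin n, if ∀ l, a l = none ∨ a l = some (i l) then
          op (fun l => star (u l (some (i l))) * u l (some (i l))) else 0 := by
    intro a
    have h4 : (fun l => star (u l (a l)) * u l (a l)) = fun l => ∑ t : Fin n,
        if a l = none ∨ a l = some t then star (u l (some t)) * u l (some t) else 0 := by
      funext l
      rcases hal : a l with _ | s
      · simp [h3]
      · simp
    rw [h4, op_sum]
    exact Finset.sum_congr rfl fun i _ =>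
      op_ite (fun l => a l = none ∨ a l = some (i l))
        (fun l => star (u l (some (i l))) * u l (some (i l)))
  have hT : star (∑ j, op fun l => u l (g j l)) * (∑ j, op fun l => u l (g j l)) =
      ∑ j, op fun l => star (u l (g j l)) * u l (g j l) := by
    rw [star_sum, Finset.sum_mul]
    refine Finset.sum_congr rfl fun j _ => ?_
    rw [Finset.mul_sum, Finset.sum_eq_single j]
    · rw [key]
    · intro j' _ hj'
      rw [key]
      obtain ⟨l, hl⟩ := hg.supp j j' hj'.symm
      refine op_eq_zero _ l ?_
      rcases ha : g j l with _ | s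
      · rcases hb : g j' l with _ | s'
        · exact absurd (by simp [ha, hb]) hl
        · exact h2 l s'
      · rcases hb : g j' l with _ | s'
        · exact h2' l s
        · exact absurd (by simp [ha, hb]) hl
    · simp
  have hD : star (op fun l => u l none) * (op fun l => u l none) =
      ∑ i : Fin (K + 1) → Fin n, op (fun l => star (u l (some (i l))) * u l (some (i l))) := by
    rw [key, diag]
    exact Finset.sum_congr rfl fun i _ => if_pos fun l => Or.inl rfl
  choose c hc using hg.cov
  have hsum : star (∑ j, op fun l => u l (g j l)) * (∑ j, op fun l => u l (g j l)) -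
      star (op fun l => u l none) * (op fun l => u l none) =
      ∑ i : Fin (K + 1) → Fin n, ∑ j : Fin J,
        if (∀ l, g j l = none ∨ g j l = some (i l)) ∧ j ≠ c i then
          op (fun l => star (u l (some (i l))) * u l (some (i l))) else 0 := by
    rw [hT, hD, sub_eq_iff_eq_add, ← Finset.sum_add_distrib,
      Finset.sum_congr rfl (fun j _ => diag (g j)), Finset.sum_comm]
    refine Finset.sum_congr rfl fun i _ => ?_
    rw [← Finset.sum_erase_add _ _ (Finset.mem_univ (c i)),
      ← Finset.sum_erase_add (Finset.univ : Finset (Fin J)) (fun j =>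
        if (∀ l, g j l = none ∨ g j l = some (i l)) ∧ j ≠ c i then
          op (fun l => star (u l (some (i l))) * u l (some (i l))) else 0)
        (Finset.mem_univ (c i)), if_pos (hc i), if_neg (by simp), add_zero]
    congr 1
    refine Finset.sum_congr rfl fun j hj => ?_
    have hj' : j ≠ c i := Finset.ne_of_mem_erase hj
    by_cases hh : ∀ l, g j l = none ∨ g j l = some (i l)
    · rw [if_pos hh, if_pos ⟨hh, hj'⟩]
    · rw [if_neg hh, if_neg fun h => hh h.1]
  rw [hsum]
  refine Pos.sum _ _ fun i _ => Pos.sum _ _ fun j _ => ?_
  split_ifs with h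
  · rw [← key (fun l => some (i l)) (fun l => some (i l))]
    exact pos_star_mul _
  · exact pos_zero

theorem t_LAB : S_LAB := by
  intro n K J g hg E _ d k r hd hk hdk hR hC
  classical
  let u : Fin (K + 1) → Option (Fin n) → E := fun l o => match o with
    | none => d l
    | some i => k l * r l i * d l
  have hu0 : ∀ l, u l none = d l := fun l => rfl
  have hu1 : ∀ l i, u l (some i) = k l * r l i * d l := fun l i => rfl
  -- closure property
  have hcl : ∀ (x : E) (l : Fin (K + 1)), (∀ o, Co x (LBf (d l) (k l) (r l) o)) →
      ∀ o, Co x (u l o) := by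
    intro x l h o
    rcases o with _ | i
    · exact h none
    · exact ((h (some none)).mul_right (h (some (some i)))).mul_right (h none)
  have h1 : ∀ l l', l ≠ l' → ∀ o o', Co (u l o) (u l' o') := by
    intro l l' hl o o'
    refine (hcl _ l (fun p => ?_) o).symm
    refine (hcl _ l' (fun p' => ?_) o').symm
    exact hC l l' hl p p'
  have h2 : ∀ l i, star (u l none) * u l (some i) = 0 := by
    intro l i
    rw [hu0, hu1, hd, ← mul_assoc, ← mul_assoc, hdk, zero_mul, zero_mul]
  have h3 : ∀ l, star (u l none) * u l none = ∑ i, star (u l (some i)) * u l (some i) := by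
    intro l
    have : ∀ i, star (u l (some i)) * u l (some i) =
        d l * (star (r l i) * (k l * k l) * r l i) * d l := by
      intro i
      rw [hu1, star_mul, star_mul, hd, hk]
      simp only [mul_assoc]
    simp only [this]
    rw [← Finset.sum_mul, ← Finset.mul_sum, hR, hu0, hd, mul_one]
  have h4 : ∀ j, ∃ t : E, (op fun l => u l (g j l)) = k 0 * t := by
    intro j
    obtain ⟨i, hi⟩ := Option.ne_none_iff_exists'.1 (hg.zero j)
    refine ⟨r 0 i * d 0 * op (fun l : Fin K => u l.succ (g j l.succ)), ?_⟩
    rw [op_succ, hi, hu1]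
    simp only [mul_assoc]
  choose t ht using h4
  refine ⟨∑ j, op fun l => u l (g j l), ∑ j, t j, ?_, ?_, ?_⟩
  · rw [Finset.mul_sum]
    exact Finset.sum_congr rfl fun j _ => ht j
  · exact label hg u h1 h2 h3
  · have hx : ∀ x : E, (∀ l, Cm x (LBf (d l) (k l) (r l))) →
        x * (∑ j, op fun l => u l (g j l)) = (∑ j, op fun l => u l (g j l)) * x := by
      intro x h
      rw [Finset.mul_sum, Finset.sum_mul]
      exact Finset.sum_congr rfl fun j _ => comm_op _ _ fun l => (hcl x l (h l) (g j l)).1
    intro x h
    refine ⟨hx x h, ?_⟩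
    have h5 := congrArg star (hx (star x) fun l o => Co.star_left (h l o))
    rw [star_mul, star_mul, star_star] at h5
    exact h5.symm

end main

end Pool.Agent.N434.DT
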